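import Pool.Agent.H79.QE4
import Pool.Agent.H79.LieFO

set_option autoImplicit false

/-! Negative answer to Q1: over every algebraically closed field `F` of characteristic zero (such as
the complex numbers), the elementary theory of `F` is decidable, and the elementary theory of every
free Lie algebra over `F` of rank at least two is undecidable. -/

namespace Pool.Agent.Results.MP_5be460_lc.ElementaryTheory

open Pool.Agent.H79

/-- For every algebraically closed field `F` of characteristic zero and every `X` with at least two
elements: `Th(F)` is decidable and `Th(L_F(X))` is undecidable, where `L_F(X)` is the free Lie
algebra over `F` on `X`, as a two-sorted structure. -/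
theorem result (F : Type*) [Field F] [CharZero F] [IsAlgClosed F] (X : Type*) [Nontrivial X] :
    FieldTheoryDecidable F ∧ ¬ LieTheoryDecidable F (FreeLieAlgebra F X) :=
  ⟨field_theory_decidable F, lie_theory_undecidable F X⟩

end Pool.Agent.Results.MP_5be460_lc.ElementaryTheory
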